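import Mathlib

/-!
Strongly increasing sequences of functions `ℕ → Ordinal`: definitions and a club toolkit.
-/

open Ordinal Cardinal Set Order

namespace MPebde8a

/-- `u <_m v`: strict inequality at all places `k ≥ m`. -/
def LtFrom (m : ℕ) (u v : ℕ → Ordinal.{0}) : Prop := ∀ k, m ≤ k → u k < v k

/-- `C` is a closed unbounded subset of the ordinal `δ`. -/
def ClubIn (δ : Ordinal.{0}) (C : Set Ordinal.{0}) : Prop :=
  (∀ β ∈ C, β < δ) ∧ (∀ α < δ, ∃ β ∈ C, α < β) ∧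
    ∀ γ < δ, γ ≠ 0 → (∀ α < γ, ∃ β ∈ C, α < β ∧ β < γ) → γ ∈ C

/-- `f` restricted to `l` is a strongly increasing sequence of functions. -/
def StronglyIncreasing (l : Ordinal.{0}) (f : Ordinal.{0} → ℕ → Ordinal.{0}) : Prop :=
  (∀ α β, α < β → β < l → ∃ m, LtFrom m (f α) (f β)) ∧
    ∀ δ < l, IsSuccLimit δ → ∃ C, ClubIn δ C ∧ ∃ m, ∀ β ∈ C, LtFrom m (f β) (f δ)

/-- The weak form used in the proofs: `≤` on clubs, only at points of uncountable cofinality. -/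
def WeakChain (l : Ordinal.{0}) (h : Ordinal.{0} → ℕ → Ordinal.{0}) : Prop :=
  (∀ α β, α < β → β < l → ∃ m, LtFrom m (h α) (h β)) ∧
    ∀ δ < l, ℵ₀ < δ.cof → ∃ C, ClubIn δ C ∧ ∃ m, ∀ β ∈ C, ∀ k, m ≤ k → h β k ≤ h δ k

theorem exists_bound {ι : Type} {l : Ordinal.{0}} (h : #ι < l.cof) (g : ι → Ordinal.{0})
    (hg : ∀ i, g i < l) : ∃ b < l, ∀ i, g i < b :=
  ⟨_, iSup_add_one_lt_of_lt_cof h hg, fun i => Ordinal.lt_iSup_add_one_iff.2 ⟨i, le_rfl⟩⟩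

theorem iSup_Iio_lt {l i : Ordinal.{0}} (h : i.card < l.cof) (g : Ordinal.{0} → Ordinal.{0})
    (hg : ∀ j < i, g j < l) : (⨆ j : Iio i, (g j.1 + 1)) < l := by
  apply lift_iSup_add_one_lt_of_lt_cof
  · rw [← lift_cof, Cardinal.mk_Iio_ordinal, Cardinal.lift_lift, Cardinal.lift_lt]
    exact h
  · intro j
    exact hg j.1 j.2

theorem exists_bound_Iio {l i : Ordinal.{0}} (h : i.card < l.cof) (g : Ordinal.{0} → Ordinal.{0})
    (hg : ∀ j < i, g j < l) : ∃ b < l, ∀ j < i, g j < b :=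
  ⟨_, iSup_Iio_lt h g hg, fun j hj => Ordinal.lt_iSup_add_one_iff.2 ⟨⟨j, hj⟩, le_rfl⟩⟩

theorem isSuccLimit_of {γ : Ordinal.{0}} (h0 : γ ≠ 0) (h : ∀ α < γ, ∃ β, α < β ∧ β < γ) :
    IsSuccLimit γ := by
  rw [Ordinal.isSuccLimit_iff]
  refine ⟨h0, ?_⟩
  rw [isSuccPrelimit_iff_succ_lt]
  intro a ha
  obtain ⟨β, h1, h2⟩ := h a ha
  exact (succ_le_of_lt h1).trans_lt h2

end MPebde8a
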