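import Pool.Agent.Lib_helper35.SI.Basic

open Ordinal Cardinal Set Order

namespace MPebde8a

/-- Iterating a step below `δ` of uncountable cofinality. -/
theorem iter {δ : Ordinal.{0}} (hδ : ℵ₀ < δ.cof) (P : Ordinal.{0} → Ordinal.{0} → Prop)
    (hP : ∀ i < δ, ∃ j < δ, i < j ∧ P i j) {α : Ordinal.{0}} (hα : α < δ) :
    ∃ γ < δ, IsSuccLimit γ ∧ α < γ ∧ ∀ a < γ, ∃ i j, a ≤ i ∧ i < j ∧ j < γ ∧ P i j := by
  classical
  have hP' : ∀ i : Ordinal.{0}, ∃ j : Ordinal.{0}, i < δ → (j < δ ∧ i < j ∧ P i j) := by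
    intro i
    by_cases h : i < δ
    · obtain ⟨j, h1, h2, h3⟩ := hP i h
      exact ⟨j, fun _ => ⟨h1, h2, h3⟩⟩
    · exact ⟨0, fun h' => absurd h' h⟩
  choose s hs using hP'
  let x : ℕ → Ordinal.{0} := fun p => s^[p] α
  have hx0 : x 0 = α := rfl
  have hxs : ∀ p, x (p + 1) = s (x p) := fun p => by
    simp only [x, Function.iterate_succ_apply']
  have hxl : ∀ p, x p < δ := by
    intro p
    induction p with
    | zero => exact hα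
    | succ p ih => rw [hxs]; exact (hs _ ih).1
  have hxm : ∀ p, x p < x (p + 1) := fun p => by rw [hxs]; exact (hs _ (hxl p)).2.1
  have hxP : ∀ p, P (x p) (x (p + 1)) := fun p => by rw [hxs]; exact (hs _ (hxl p)).2.2
  have hmono : StrictMono x := strictMono_nat_of_lt_succ hxm
  let γ : Ordinal.{0} := ⨆ p, x p + 1
  have hγ : γ < δ := iSup_add_one_lt_of_lt_cof (by simpa using hδ) hxl
  have hlt : ∀ p, x p < γ := fun p => Ordinal.lt_iSup_add_one_iff.2 ⟨p, le_rfl⟩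
  have hex : ∀ a < γ, ∃ p, a ≤ x p := fun a ha => Ordinal.lt_iSup_add_one_iff.1 ha
  refine ⟨γ, hγ, isSuccLimit_of ?_ ?_, hlt 0, ?_⟩
  · exact ((bot_le : (⊥ : Ordinal.{0}) ≤ x 0).trans_lt (hlt 0)).ne'
  · intro a ha
    obtain ⟨p, hp⟩ := hex a ha
    exact ⟨x (p + 1), hp.trans_lt (hxm p), hlt _⟩
  · intro a ha
    obtain ⟨p, hp⟩ := hex a ha
    exact ⟨x p, x (p + 1), hp, hxm p, hlt _, hxP p⟩

theorem ClubIn.inter {δ : Ordinal.{0}} (hδ : ℵ₀ < δ.cof) {C D : Set Ordinal.{0}}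
    (hC : ClubIn δ C) (hD : ClubIn δ D) : ClubIn δ (C ∩ D) := by
  refine ⟨fun β hβ => hC.1 β hβ.1, ?_, ?_⟩
  · intro α hα
    have step : ∀ i < δ, ∃ j < δ, i < j ∧ ((∃ c ∈ C, i < c ∧ c < j) ∧ ∃ d ∈ D, i < d ∧ d < j) := by
      intro i hi
      obtain ⟨c, hc, hic⟩ := hC.2.1 i hi
      obtain ⟨d, hd, hid⟩ := hD.2.1 i hi
      obtain ⟨c', hc', hcc'⟩ := hC.2.1 (max c d) (max_lt (hC.1 c hc) (hD.1 d hd))
      have h1 : c < c' := (le_max_left _ _).trans_lt hcc'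
      have h2 : d < c' := (le_max_right _ _).trans_lt hcc'
      exact ⟨c', hC.1 c' hc', hic.trans h1, ⟨c, hc, hic, h1⟩, ⟨d, hd, hid, h2⟩⟩
    obtain ⟨γ, hγ, hlim, hαγ, hcof⟩ := iter hδ _ step hα
    refine ⟨γ, ⟨hC.2.2 γ hγ hlim.ne_bot ?_, hD.2.2 γ hγ hlim.ne_bot ?_⟩, hαγ⟩
    · intro a ha
      obtain ⟨i, j, h1, h2, h3, ⟨c, hc, h4, h5⟩, _⟩ := hcof a ha
      exact ⟨c, hc, h1.trans_lt h4, h5.trans h3⟩
    · intro a ha
      obtain ⟨i, j, h1, h2, h3, _, ⟨c, hc, h4, h5⟩⟩ := hcof a ha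
      exact ⟨c, hc, h1.trans_lt h4, h5.trans h3⟩
  · intro γ hγ h0 h
    refine ⟨hC.2.2 γ hγ h0 ?_, hD.2.2 γ hγ h0 ?_⟩
    · intro a ha
      obtain ⟨β, hβ, h1⟩ := h a ha
      exact ⟨β, hβ.1, h1⟩
    · intro a ha
      obtain ⟨β, hβ, h1⟩ := h a ha
      exact ⟨β, hβ.2, h1⟩

/-- Preimage of a club under an increasing map that is continuous at limit points. -/
theorem ClubIn.preimage {δ : Ordinal.{0}} (hδ : ℵ₀ < δ.cof) {y : Ordinal.{0} → Ordinal.{0}}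
    (hy : StrictMono y) (hcont : ∀ γ ≤ δ, IsSuccLimit γ → ∀ b < y γ, ∃ j < γ, b < y j)
    {C : Set Ordinal.{0}} (hC : ClubIn (y δ) C) : ClubIn δ {i | i < δ ∧ y i ∈ C} := by
  have hδlim : IsSuccLimit δ := by
    exact Ordinal.one_lt_cof_iff.1 (Cardinal.one_lt_aleph0.trans hδ)
  refine ⟨fun β hβ => hβ.1, ?_, ?_⟩
  · intro α hα
    have step : ∀ i < δ, ∃ j < δ, i < j ∧ (∃ c ∈ C, y i < c ∧ c < y j) := by
      intro i hi
      obtain ⟨c, hc, hic⟩ := hC.2.1 (y i) (hy hi)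
      obtain ⟨j, hj, hcj⟩ := hcont δ le_rfl hδlim c (hC.1 c hc)
      exact ⟨j, hj, hy.lt_iff_lt.1 (hic.trans hcj), c, hc, hic, hcj⟩
    obtain ⟨γ, hγ, hlim, hαγ, hcof⟩ := iter hδ _ step hα
    refine ⟨γ, ⟨hγ, hC.2.2 (y γ) (hy hγ) ?_ ?_⟩, hαγ⟩
    · exact ((bot_le : (⊥ : Ordinal.{0}) ≤ _).trans_lt (hy hαγ)).ne'
    · intro a ha
      obtain ⟨j, hj, haj⟩ := hcont γ hγ.le hlim a ha
      obtain ⟨i, i', h1, h2, h3, c, hc, h4, h5⟩ := hcof j hj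
      exact ⟨c, hc, haj.trans ((hy.monotone h1).trans_lt h4), h5.trans (hy h3)⟩
  · intro γ hγ h0 h
    have hlim : IsSuccLimit γ := isSuccLimit_of h0 fun a ha => by
      obtain ⟨β, _, h1⟩ := h a ha
      exact ⟨β, h1⟩
    refine ⟨hγ, hC.2.2 (y γ) (hy hγ) ?_ ?_⟩
    · obtain ⟨β, _, h1, h2⟩ := h 0 (pos_iff_ne_zero.2 h0)
      exact ((bot_le : (⊥ : Ordinal.{0}) ≤ _).trans_lt (hy h2)).ne'
    · intro a ha
      obtain ⟨j, hj, haj⟩ := hcont γ hγ.le hlim a ha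
      obtain ⟨β, hβ, h1, h2⟩ := h j hj
      exact ⟨y β, hβ.2, haj.trans (hy h1), hy h2⟩

/-- A club consisting of points of smaller cofinality. -/
theorem exists_club_small_cof {δ : Ordinal.{0}} (hδ : ℵ₀ < δ.cof) :
    ∃ C, ClubIn δ C ∧ ∀ γ ∈ C, γ.cof < δ.cof := by
  obtain ⟨f, hf⟩ := exists_isFundamentalSeq (o := δ) rfl
  have hcofin : ∀ α < δ, ∃ i, α < (f i).1 := by
    intro α hα
    have hδlim : IsSuccLimit δ := by
      exact Ordinal.one_lt_cof_iff.1 (Cardinal.one_lt_aleph0.trans hδ)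
    obtain ⟨_, ⟨i, rfl⟩, hi⟩ := hf.isCofinal_range ⟨succ α, hδlim.succ_lt hα⟩
    exact ⟨i, (lt_succ α).trans_le hi⟩
  refine ⟨{γ | γ < δ ∧ γ ≠ 0 ∧ ∀ α < γ, ∃ i, α < (f i).1 ∧ (f i).1 < γ}, ⟨fun γ h => h.1, ?_, ?_⟩,
    ?_⟩
  · intro α hα
    have step : ∀ i < δ, ∃ j < δ, i < j ∧ (∃ c, i < (f c).1 ∧ (f c).1 < j) := by
      intro i hi
      obtain ⟨c, hc⟩ := hcofin i hi
      obtain ⟨c', hc'⟩ := hcofin (f c).1 (f c).2
      exact ⟨(f c').1, (f c').2, hc.trans hc', c, hc, hc'⟩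
    obtain ⟨γ, hγ, hlim, hαγ, hcof⟩ := iter hδ _ step hα
    refine ⟨γ, ⟨hγ, hlim.ne_bot, ?_⟩, hαγ⟩
    intro a ha
    obtain ⟨i, j, h1, h2, h3, c, h4, h5⟩ := hcof a ha
    exact ⟨c, h1.trans_lt h4, h5.trans h3⟩
  · intro γ hγ h0 h
    refine ⟨hγ, h0, fun a ha => ?_⟩
    obtain ⟨β, hβ, h1, h2⟩ := h a ha
    obtain ⟨i, h3, h4⟩ := hβ.2.2 a h1
    exact ⟨i, h3, h4.trans h2⟩
  · rintro γ ⟨hγ, h0, h⟩
    -- the set of indices below `γ` is an initial segment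
    obtain ⟨i0, hi0⟩ := hcofin γ hγ
    by_contra hcon
    rw [not_lt] at hcon
    have hcard : i0.1.card < γ.cof := (Cardinal.lt_ord.1 i0.2).trans_le hcon
    classical
    obtain ⟨b, hb, hb'⟩ := exists_bound_Iio (l := γ) (i := i0.1) hcard
      (fun j => if hj : j < δ.cof.ord then (if (f ⟨j, hj⟩).1 < γ then (f ⟨j, hj⟩).1 else 0) else 0)
      (by
        intro j hj
        have hj' : j < δ.cof.ord := hj.trans i0.2
        simp only [hj', dif_pos]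
        split_ifs with h1
        · exact h1
        · exact pos_iff_ne_zero.2 h0)
    obtain ⟨i, h1, h2⟩ := h b hb
    have hlt : i.1 < i0.1 := by
      by_contra hle
      rw [not_lt] at hle
      exact absurd (h2.trans hi0) (not_lt.2 (hf.strictMono.monotone (show i0 ≤ i from hle)))
    have := hb' i.1 hlt
    have hi' : i.1 < δ.cof.ord := i.2
    simp only [hi', dif_pos, Subtype.coe_eta, h2, if_pos] at this
    exact absurd (this.trans h1) (lt_irrefl _)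

end MPebde8a
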