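import Pool.Agent.Lib_helper35.SI.Range

open Ordinal Cardinal Set Order

namespace MPebde8a

theorem countable_Iio_of_lt {ε : Ordinal.{0}} (hε : ε < ω₁) : (Iio ε).Countable := by
  rw [← Cardinal.le_aleph0_iff_set_countable, Cardinal.mk_Iio_ordinal, Cardinal.lift_le_aleph0]
  have h := Cardinal.lt_omega_iff_card_lt.1 hε
  exact Cardinal.lt_aleph_one_iff.1 h

/-- A choice function with a default value. -/
noncomputable def pick (P : Ordinal.{0} → Prop) (d : Ordinal.{0}) : Ordinal.{0} := by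
  classical
  exact if h : ∃ b, P b then h.choose else d

theorem pick_spec {P : Ordinal.{0} → Prop} {d : Ordinal.{0}} (h : ∃ b, P b) : P (pick P d) := by
  classical
  unfold pick
  rw [dif_pos h]
  exact h.choose_spec

theorem pick_neg {P : Ordinal.{0} → Prop} {d : Ordinal.{0}} (h : ¬ ∃ b, P b) : pick P d = d := by
  classical
  unfold pick
  rw [dif_neg h]

section

variable (l μ : Ordinal.{0}) (h : Ordinal.{0} → ℕ → Ordinal.{0}) (t : Ordinal.{0} → Set Ordinal.{0})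

/-- `h_ρ` bounds all `h_(y x)`, `x ∈ t i`, from the place `m` on, and `t i ⊆ [0, j]`. -/
def Bd (j : Ordinal.{0}) (y : Ordinal.{0} → Ordinal.{0}) (i : Ordinal.{0}) (m : ℕ)
    (ρ : Ordinal.{0}) : Prop :=
  t i ⊆ Iic j ∧ ∀ x ∈ t i, ∀ k, m ≤ k → h (y x) k ≤ h ρ k

def Good (j : Ordinal.{0}) (y : Ordinal.{0} → Ordinal.{0}) (b : Ordinal.{0}) : Prop :=
  b < l ∧ y j ≤ b ∧ ∀ i < μ, ∀ m, (∃ ρ < l, Bd h t j y i m ρ) → ∃ ρ < b, Bd h t j y i m ρ

variable {l μ h t}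

theorem Bd_congr {j : Ordinal.{0}} {y y' : Ordinal.{0} → Ordinal.{0}}
    (hy : ∀ k ≤ j, y k = y' k) (i : Ordinal.{0}) (m : ℕ) (ρ : Ordinal.{0}) :
    Bd h t j y i m ρ → Bd h t j y' i m ρ := by
  rintro ⟨h1, h2⟩
  refine ⟨h1, fun x hx k hk => ?_⟩
  rw [← hy x (h1 hx)]
  exact h2 x hx k hk

theorem Good_congr {j : Ordinal.{0}} {y y' : Ordinal.{0} → Ordinal.{0}}
    (hy : ∀ k ≤ j, y k = y' k) (b : Ordinal.{0}) : Good l μ h t j y b → Good l μ h t j y' b := by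
  rintro ⟨h1, h2, h3⟩
  refine ⟨h1, by rwa [← hy j le_rfl], fun i hi m => ?_⟩
  rintro ⟨ρ, hρ, hB⟩
  obtain ⟨ρ', hρ', hB'⟩ := h3 i hi m ⟨ρ, hρ, Bd_congr (fun k hk => (hy k hk).symm) i m ρ hB⟩
  exact ⟨ρ', hρ', Bd_congr hy i m ρ' hB'⟩

theorem exists_good (hμ : μ.card < l.cof) (hl : ℵ₀ < l.cof) (j : Ordinal.{0})
    (y : Ordinal.{0} → Ordinal.{0}) (hyj : y j < l) : ∃ b, Good l μ h t j y b := by
  classical
  have h1 : ∀ (i : Ordinal.{0}) (m : ℕ), ∃ ρ < l, (∃ ρ < l, Bd h t j y i m ρ) → Bd h t j y i m ρ := by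
    intro i m
    by_cases hex : ∃ ρ < l, Bd h t j y i m ρ
    · obtain ⟨ρ, h1, h2⟩ := hex
      exact ⟨ρ, h1, fun _ => h2⟩
    · exact ⟨y j, hyj, fun h => absurd h hex⟩
  choose ρ hρ hρ' using h1
  have h2 : ∀ m : ℕ, ∃ b < l, ∀ i < μ, ρ i m < b := fun m =>
    exists_bound_Iio hμ (fun i => ρ i m) fun i _ => hρ i m
  choose b hb hb' using h2
  obtain ⟨b', hb1, hb2⟩ := exists_bound (l := l) (ι := ℕ) (by rwa [Cardinal.mk_nat]) b hb
  refine ⟨max (y j) b', max_lt hyj hb1, le_max_left _ _, fun i hi m hex => ?_⟩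
  exact ⟨ρ i m, ((hb' m i hi).trans (hb2 m)).trans_le (le_max_right _ _), hρ' i m hex⟩

end

theorem exists_club_no_branch {n : ℕ} {h : Ordinal.{0} → ℕ → Ordinal.{0}}
    (hw : WeakChain (ω_ ((n + 1 + 1 : ℕ) : Ordinal.{0})) h) {ε : Ordinal.{0}} (hε : ε < ω₁)
    (hh : ∀ α k, h α k < ε) (t : Ordinal.{0} → Set Ordinal.{0}) :
    ∃ E, ClubIn (ω_ ((n + 1 : ℕ) : Ordinal.{0})) E ∧ ∀ c ⊆ E,
      (∀ a ∈ c, ∃ i < ω_ ((n + 1 : ℕ) : Ordinal.{0}), {x | x ∈ c ∧ x < a} = t i) →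
        c.Countable := by
  classical
  set l : Ordinal.{0} := ω_ ((n + 1 + 1 : ℕ) : Ordinal.{0}) with hl
  set μ : Ordinal.{0} := ω_ ((n + 1 : ℕ) : Ordinal.{0}) with hμ
  have hμl : μ < l := omega_lt_omega.2 (by exact_mod_cast Nat.lt_succ_self _)
  have hcard : ∀ i < l, i.card < l.cof := card_lt_cof_W (n + 1)
  have hcofl : ℵ₀ < l.cof := aleph0_lt_cof_W (n + 1)
  have hcofμ : ℵ₀ < μ.cof := aleph0_lt_cof_W n
  obtain ⟨y, hy⟩ := exists_rec (fun j y => pick (Good l μ h t j y) (y j)) (by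
    intro j y y' hyy
    have h1 : Good l μ h t j y = Good l μ h t j y' := by
      funext b
      exact propext ⟨Good_congr hyy b, Good_congr (fun k hk => (hyy k hk).symm) b⟩
    rw [h1, hyy j le_rfl])
  let g : Ordinal.{0} → Ordinal.{0} := fun j => pick (Good l μ h t j y) (y j)
  have hyg : ∀ i, y i = ⨆ j : Iio i, (g j.1 + 1) := hy
  have hg1 : ∀ j, y j < l → Good l μ h t j y (g j) := fun j hj =>
    pick_spec (exists_good (hcard μ hμl) hcofl j y hj)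
  have hg2 : ∀ j, y j ≤ g j := by
    intro j
    by_cases hex : ∃ b, Good l μ h t j y b
    · exact (pick_spec (d := y j) hex).2.1
    · exact (pick_neg (d := y j) hex).ge
  have hmon : StrictMono y := ladder_mono hyg hg2
  have hyl : ∀ i < l, y i < l := ladder_bdd hyg hcard fun j _ hj => (hg1 j hj).1
  have hcont : ∀ γ ≤ μ, IsSuccLimit γ → ∀ b < y γ, ∃ j < γ, b < y j :=
    fun γ _ hγ b hb => ladder_cont hyg hγ hb
  have hnorm : Order.IsNormal y := by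
    rw [Order.isNormal_iff]
    refine ⟨hmon, fun o ho a ha => ?_⟩
    by_contra hcon
    obtain ⟨j, hj, haj⟩ := ladder_cont hyg ho (not_le.1 hcon)
    exact absurd (ha j hj) (not_le.2 haj)
  have hμlim : IsSuccLimit μ := isSuccLimit_omega _
  have hδcof : ℵ₀ < (y μ).cof := by
    rw [cof_map_of_isNormal hnorm hμlim]
    exact hcofμ
  have hδl : y μ < l := hyl μ hμl
  obtain ⟨C, hC, m0, hm0⟩ := hw.2 (y μ) hδl hδcof
  refine ⟨_, hC.preimage hcofμ hmon hcont, fun c hcE hc => ?_⟩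
  -- the next element
  have hnx : ∀ i : Ordinal.{0}, ∃ j : Ordinal.{0}, (i ∈ c ∧ ∃ j ∈ c, i < j) →
      j ∈ c ∧ i < j ∧ ∀ x ∈ c, i < x → j ≤ x := by
    intro i
    by_cases hi : i ∈ c ∧ ∃ j ∈ c, i < j
    · obtain ⟨_, j, hj, hij⟩ := hi
      have hne : {j | j ∈ c ∧ i < j}.Nonempty := ⟨j, hj, hij⟩
      refine ⟨sInf {j | j ∈ c ∧ i < j}, fun _ => ⟨(csInf_mem hne).1, (csInf_mem hne).2, ?_⟩⟩
      intro x hx hix
      exact csInf_le' ⟨hx, hix⟩
    · exact ⟨0, fun h => absurd h hi⟩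
  choose nx hnx using hnx
  have key : ∀ i : Ordinal.{0}, ∃ m : ℕ, (i ∈ c ∧ ∃ j ∈ c, i < j) →
      ∀ x ∈ c, x ≤ i → ∀ k, m ≤ k → h (y x) k < h (y (nx i)) k := by
    intro i
    by_cases hi : i ∈ c ∧ ∃ j ∈ c, i < j
    · obtain ⟨h1, h2, h3⟩ := hnx i hi
      obtain ⟨i', hi', hti⟩ := hc (nx i) h1
      have hsub : t i' ⊆ Iic i := by
        intro x hx
        rw [← hti] at hx
        by_contra hcon
        exact absurd (h3 x hx.1 (not_le.1 hcon)) (not_le.2 hx.2)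
      have hBd : Bd h t i y i' m0 (y μ) := by
        refine ⟨hsub, fun x hx k hk => ?_⟩
        rw [← hti] at hx
        exact hm0 (y x) (hcE hx.1).2 k hk
      have hil : y i < l := hyl i (((hcE hi.1).1).trans hμl)
      obtain ⟨ρ, hρ, hB⟩ := (hg1 i hil).2.2 i' hi' m0 ⟨y μ, hδl, hBd⟩
      have hρ' : ρ < y (nx i) := hρ.trans (ladder_lt hyg h2)
      have hnl : y (nx i) < l := hyl _ (((hcE h1).1).trans hμl)
      obtain ⟨m1, hm1⟩ := hw.1 ρ (y (nx i)) hρ' hnl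
      refine ⟨max m0 m1, fun _ x hx hxi k hk => ?_⟩
      have hxt : x ∈ t i' := by
        rw [← hti]
        exact ⟨hx, hxi.trans_lt h2⟩
      exact (hB.2 x hxt k ((le_max_left _ _).trans hk)).trans_lt
        (hm1 k ((le_max_right _ _).trans hk))
    · exact ⟨0, fun h => absurd h hi⟩
  choose m hm using key
  have hpiece : ∀ M : ℕ, {i | (i ∈ c ∧ ∃ j ∈ c, i < j) ∧ m i ≤ M}.Countable := by
    intro M
    refine Set.MapsTo.countable_of_injOn (f := fun i => h (y (nx i)) M) (t := Iio ε) ?_ ?_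
      (countable_Iio_of_lt hε)
    · intro i _
      exact hh _ _
    · have hlt : ∀ i ∈ {i | (i ∈ c ∧ ∃ j ∈ c, i < j) ∧ m i ≤ M},
          ∀ j ∈ {i | (i ∈ c ∧ ∃ j ∈ c, i < j) ∧ m i ≤ M}, i < j →
            h (y (nx i)) M < h (y (nx j)) M := by
        rintro i ⟨hi, _⟩ j ⟨hj, hmj⟩ hij
        obtain ⟨h1, h2, h3⟩ := hnx i hi
        exact hm j hj (nx i) h1 (h3 j hj.1 hij) M hmj
      intro i hi j hj hij
      rcases lt_trichotomy i j with h1 | h1 | h1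
      · exact absurd hij (hlt i hi j hj h1).ne
      · exact h1
      · exact absurd hij (hlt j hj i hi h1).ne'
  have hU : {i | i ∈ c ∧ ∃ j ∈ c, i < j}.Countable := by
    refine (Set.countable_iUnion hpiece).mono fun i hi => ?_
    exact Set.mem_iUnion.2 ⟨m i, hi, le_rfl⟩
  have hrest : {i | i ∈ c ∧ ¬ ∃ j ∈ c, i < j}.Subsingleton := by
    rintro i ⟨hi, hi'⟩ j ⟨hj, hj'⟩
    rcases lt_trichotomy i j with h1 | h1 | h1
    · exact absurd ⟨j, hj, h1⟩ hi'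
    · exact h1
    · exact absurd ⟨i, hi, h1⟩ hj'
  refine (hU.union hrest.countable).mono fun i hi => ?_
  by_cases hex : ∃ j ∈ c, i < j
  · exact Or.inl ⟨hi, hex⟩
  · exact Or.inr ⟨hi, hex⟩

end MPebde8a
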