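import Pool.Agent.Lib_helper35.SI.Upgrade

open Ordinal Cardinal Set Order

namespace MPebde8a

/-- The repaired sequence. -/
noncomputable def rep (n : ℕ) (h : Ordinal.{0} → ℕ → Ordinal.{0}) (α : Ordinal.{0}) (k : ℕ) :
    Ordinal.{0} :=
  if k < rem α then 0
  else ((k + 1 : ℕ) : Ordinal.{0}) *
    (((n + 2 : ℕ) : Ordinal.{0}) * h (α / ω) k + (rk (α / ω) : ℕ) + 1) + (rem α : ℕ)

theorem rep_mul_add (n : ℕ) (h : Ordinal.{0} → ℕ → Ordinal.{0}) (i : Ordinal.{0}) (p k : ℕ) :
    rep n h (ω * i + p) k = if k < p then 0 else ((k + 1 : ℕ) : Ordinal.{0}) *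
      (((n + 2 : ℕ) : Ordinal.{0}) * h i k + (rk i : ℕ) + 1) + (p : ℕ) := by
  rw [rep, div_mul_add, rem_mul_add]

theorem rep_mul (n : ℕ) (h : Ordinal.{0} → ℕ → Ordinal.{0}) (i : Ordinal.{0}) (k : ℕ) :
    rep n h (ω * i) k = ((k + 1 : ℕ) : Ordinal.{0}) *
      (((n + 2 : ℕ) : Ordinal.{0}) * h i k + (rk i : ℕ) + 1) + ((0 : ℕ) : Ordinal.{0}) := by
  rw [rep, div_mul', rem_mul']
  simp

theorem rep_pos (n : ℕ) (h : Ordinal.{0} → ℕ → Ordinal.{0}) (i : Ordinal.{0}) (k : ℕ) :
    0 < rep n h (ω * i) k := by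
  rw [rep_mul, Nat.cast_zero, add_zero]
  have h1 : (0 : Ordinal.{0}) < ((k + 1 : ℕ) : Ordinal.{0}) := by exact_mod_cast Nat.succ_pos k
  have h2 : (0 : Ordinal.{0}) < ((n + 2 : ℕ) : Ordinal.{0}) * h i k + (rk i : ℕ) + 1 :=
    Order.bot_lt_succ _
  exact Left.mul_pos h1 h2

/-- `F_(ω i + p) <_0 F_(ω j)` as soon as `h_i <_p h_j`. -/
theorem rep_lt_of {n : ℕ} {h : Ordinal.{0} → ℕ → Ordinal.{0}} {i j : Ordinal.{0}}
    (hi : rk i < n + 2) {p : ℕ} (hij : LtFrom p (h i) (h j)) :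
    LtFrom 0 (rep n h (ω * i + p)) (rep n h (ω * j)) := by
  intro k _
  rw [rep_mul_add]
  split_ifs with hk
  · exact rep_pos n h j k
  · rw [rep_mul]
    exact val_lt (coef_lt (hij k (not_lt.1 hk)) hi) (not_lt.1 hk) 0

theorem stronglyIncreasing_rep {n : ℕ} {h : Ordinal.{0} → ℕ → Ordinal.{0}}
    (hw : WeakChain (ω_ ((n + 1 + 1 : ℕ) : Ordinal.{0})) h) :
    StronglyIncreasing (ω_ ((n + 1 + 1 : ℕ) : Ordinal.{0})) (rep n h) := by
  set l : Ordinal.{0} := ω_ ((n + 1 + 1 : ℕ) : Ordinal.{0}) with hl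
  have hrk : ∀ i < l, rk i < n + 2 := fun i hi => by
    have := rk_le (n := n + 1) hi
    omega
  have hdiv : ∀ α : Ordinal.{0}, α / ω ≤ α := fun α => by
    calc α / ω ≤ ω * (α / ω) := by
          have h1 : (1 : Ordinal.{0}) * (α / ω) ≤ ω * (α / ω) :=
            mul_le_mul_left one_lt_omega0.le _
          rwa [one_mul] at h1
      _ ≤ α := Ordinal.mul_div_le α ω
  have hmul : ∀ {a b : Ordinal.{0}}, ω * a < ω * b ↔ a < b := fun {a b} =>
    mul_lt_mul_iff_right₀ omega0_pos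
  have hstep : ∀ {i j : Ordinal.{0}} (p : ℕ), i < j → ω * i + p < ω * j := by
    intro i j p hij
    have h1 : ω * i + p < ω * (i + 1) := by
      rw [mul_add_one]
      exact (add_lt_add_iff_left _).2 (natCast_lt_omega0 p)
    exact h1.trans_le (mul_le_mul_right (Order.add_one_le_of_lt hij) _)
  refine ⟨?_, ?_⟩
  · intro α β hαβ hβ
    have hα : α < l := hαβ.trans hβ
    rcases (Ordinal.div_le_left hαβ.le ω).eq_or_lt with heq | hlt
    · have hrem : rem α < rem β := by
        have h1 := eq_div_add_rem α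
        have h2 := eq_div_add_rem β
        rw [← heq] at h2
        rw [h1, h2] at hαβ
        exact_mod_cast (add_lt_add_iff_left _).1 hαβ
      refine ⟨rem β, fun k hk => ?_⟩
      rw [rep, rep, if_neg (by omega), if_neg (by omega), heq]
      exact (add_lt_add_iff_left _).2 (by exact_mod_cast hrem)
    · obtain ⟨m, hm⟩ := hw.1 (α / ω) (β / ω) hlt ((hdiv β).trans_lt hβ)
      refine ⟨max m (max (rem α) (rem β)), fun k hk => ?_⟩
      have h1 : m ≤ k := (le_max_left _ _).trans hk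
      have h2 : rem α ≤ k := ((le_max_left _ _).trans (le_max_right _ _)).trans hk
      have h3 : rem β ≤ k := ((le_max_right _ _).trans (le_max_right _ _)).trans hk
      rw [rep, rep, if_neg (by omega), if_neg (by omega)]
      exact val_lt (coef_lt (hm k h1) (hrk _ ((hdiv α).trans_lt hα))) h2 _
  · intro δ' hδ' hlim
    obtain ⟨δ, rfl⟩ := omega_dvd_of_isSuccLimit hlim
    have hδ0 : δ ≠ 0 := by
      rintro rfl
      rw [mul_zero] at hlim
      exact hlim.ne_bot rfl
    have hδ : δ < l := by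
      refine lt_of_le_of_lt ?_ hδ'
      have := hdiv (ω * δ)
      rwa [div_mul'] at this
    rcases Ordinal.zero_or_succ_or_isSuccLimit δ with h0 | ⟨j, rfl⟩ | hδlim
    · exact absurd h0 hδ0
    · -- successor
      obtain ⟨m, hm⟩ := hw.1 j (succ j) (lt_succ j) hδ
      have hj : j < l := (lt_succ j).trans hδ
      refine ⟨Set.range fun p : ℕ => ω * j + ((m + p : ℕ) : Ordinal.{0}), clubIn_range ?_ ?_ ?_, 0,
        ?_⟩
      · intro p q hpq
        exact (add_lt_add_iff_left _).2 (by exact_mod_cast (by omega : m + p < m + q))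
      · intro p
        exact hstep _ (lt_succ j)
      · intro a ha
        have h1 : a / ω < succ j := (Ordinal.lt_mul_iff_div_lt omega0_ne_zero).1 ha
        rcases (Order.lt_succ_iff.1 h1).eq_or_lt with h2 | h2
        · refine ⟨rem a + 1, ?_⟩
          have h3 := eq_div_add_rem a
          rw [h2] at h3
          conv_lhs => rw [h3]
          exact (add_lt_add_iff_left _).2 (by exact_mod_cast (by omega : rem a < m + (rem a + 1)))
        · refine ⟨0, ((Ordinal.lt_mul_iff_div_lt omega0_ne_zero).2 h2).trans_le le_self_add⟩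
      · rintro _ ⟨p, rfl⟩
        exact rep_lt_of (hrk j hj) fun k hk => hm k (by omega)
    · rcases (Ordinal.aleph0_le_cof_iff.2 (Ordinal.one_lt_cof_iff.2 hδlim)).eq_or_lt with hc | hc
      · -- cofinality `ω`
        obtain ⟨f, hf⟩ := exists_isFundamentalSeq (o := δ) (a := ω) (by rw [← hc, ord_aleph0])
        let d : ℕ → Ordinal.{0} := fun p => (f ⟨(p : Ordinal.{0}), natCast_lt_omega0 p⟩).1
        have hd : StrictMono d := fun p q hpq => hf.strictMono (by
          show ((p : ℕ) : Ordinal.{0}) < ((q : ℕ) : Ordinal.{0})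
          exact_mod_cast hpq)
        have hdlt : ∀ p, d p < δ := fun p => (f _).2
        have hdcof : ∀ a < δ, ∃ p, a < d p := by
          intro a ha
          obtain ⟨_, ⟨⟨i, hi⟩, rfl⟩, h1⟩ := hf.isCofinal_range ⟨succ a, hδlim.succ_lt ha⟩
          obtain ⟨p, rfl⟩ := lt_omega0.1 hi
          exact ⟨p, (lt_succ a).trans_le h1⟩
        have hm : ∀ p, ∃ m, LtFrom m (h (d p)) (h δ) := fun p => hw.1 _ _ (hdlt p) hδ
        choose m hm using hm
        refine ⟨Set.range fun p : ℕ => ω * d p + ((m p : ℕ) : Ordinal.{0}),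
          clubIn_range ?_ ?_ ?_, 0, ?_⟩
        · intro p q hpq
          exact (hstep _ (hd hpq)).trans_le le_self_add
        · intro p
          exact hstep _ (hdlt p)
        · intro a ha
          have h1 : a / ω < δ := (Ordinal.lt_mul_iff_div_lt omega0_ne_zero).1 ha
          obtain ⟨p, hp⟩ := hdcof _ h1
          exact ⟨p, ((Ordinal.lt_mul_iff_div_lt omega0_ne_zero).2 hp).trans_le le_self_add⟩
        · rintro _ ⟨p, rfl⟩
          exact rep_lt_of (hrk _ ((hdlt p).trans hδ)) (hm p)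
      · -- uncountable cofinality
        obtain ⟨C1, hC1, m, hm⟩ := hw.2 δ hδ hc
        obtain ⟨C2, hC2, hC2'⟩ := exists_club_small_cof hc
        refine ⟨_, (hC1.inter hc hC2).image, m, ?_⟩
        rintro _ ⟨i, ⟨hi1, hi2⟩, rfl⟩ k hk
        simp only [rep_mul]
        refine val_lt ?_ (Nat.zero_le k) 0
        have h1 : ((n + 2 : ℕ) : Ordinal.{0}) * h i k ≤ ((n + 2 : ℕ) : Ordinal.{0}) * h δ k :=
          mul_le_mul_right (hm i hi1 k hk) _
        have h2 : ((rk i : ℕ) : Ordinal.{0}) < ((rk δ : ℕ) : Ordinal.{0}) := by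
          exact_mod_cast rk_lt (n := n + 1) hδ hc (hC2' i hi2)
        exact Order.succ_lt_succ (add_lt_add_of_le_of_lt h1 h2)

theorem rep_le (n : ℕ) (h : Ordinal.{0} → ℕ → Ordinal.{0}) {α : Ordinal.{0}}
    (hα : α < ω_ ((n + 1 + 1 : ℕ) : Ordinal.{0})) (k : ℕ) :
    rep n h α k ≤ ((k + 1 : ℕ) : Ordinal.{0}) *
      (((n + 2 : ℕ) : Ordinal.{0}) * h (α / ω) k + ((n + 2 : ℕ) : Ordinal.{0})) + (k : ℕ) := by
  rw [rep]
  split_ifs with hk
  · exact bot_le
  · have h0 : α / ω ≤ α := by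
      calc α / ω ≤ ω * (α / ω) := by
            have h1 : (1 : Ordinal.{0}) * (α / ω) ≤ ω * (α / ω) :=
              mul_le_mul_left one_lt_omega0.le _
            rwa [one_mul] at h1
        _ ≤ α := Ordinal.mul_div_le α ω
    have h1 : rk (α / ω) + 1 ≤ n + 2 := by
      have := rk_le (n := n + 1) (h0.trans_lt hα)
      omega
    have h2 : ((rk (α / ω) : ℕ) : Ordinal.{0}) + 1 ≤ ((n + 2 : ℕ) : Ordinal.{0}) := by
      exact_mod_cast h1
    refine add_le_add (mul_le_mul_right ?_ _) (by exact_mod_cast not_lt.1 hk)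
    rw [add_assoc]
    exact (add_le_add_iff_left _).2 h2

end MPebde8a
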