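import Pool.Agent.Lib_helper35.SI.Reindex
import Pool.Agent.Lib_helper35.SI.Upgrade2
import Pool.Agent.Lib_helper35.SI.Guess

open Ordinal Cardinal Set Order

namespace MPebde8a

/-- If unboundedly many codes of the members of a weak chain with values below a countable ordinal
are bounded modulo finite by one function `b`, there is a weak chain of functions into the natural
numbers, below one function. -/
theorem finite_of_bounded {l : Ordinal.{0}} (hcard : ∀ i < l, i.card < l.cof)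
    {h : Ordinal.{0} → ℕ → Ordinal.{0}} (hw : WeakChain l h) {ε : Ordinal.{0}}
    (hh : ∀ α k, h α k < ε) {e : Ordinal.{0} → ℕ} (he : Set.InjOn e (Iio ε))
    {Y : Set Ordinal.{0}} (hY : Unb l Y) {b : ℕ → ℕ}
    (hb : ∀ x ∈ Y, ∃ m, ∀ k, m ≤ k → e (h x k) ≤ b k) :
    ∃ (B : ℕ → ℕ) (h' : Ordinal.{0} → ℕ → ℕ), WeakChain l (fun i k => ((h' i k : ℕ) : Ordinal.{0})) ∧
      ∀ i k, h' i k ≤ B k := by
  classical
  have hfin : ∀ k, {γ : Ordinal.{0} | γ < ε ∧ e γ ≤ b k}.Finite := by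
    intro k
    refine Set.Finite.of_finite_image (f := e) ((Set.finite_Iic (b k)).subset ?_) ?_
    · rintro _ ⟨γ, hγ, rfl⟩
      exact hγ.2
    · intro x hx y hy hxy
      exact he hx.1 hy.1 hxy
  let F : ℕ → Finset Ordinal.{0} := fun k => (hfin k).toFinset
  have hF : ∀ k γ, γ ∈ F k ↔ γ < ε ∧ e γ ≤ b k := fun k γ => by
    simp only [F, Set.Finite.mem_toFinset, Set.mem_ofPred_eq]
  let ψ : ℕ → Ordinal.{0} → ℕ := fun k γ => ((F k).filter (fun x => x < γ)).card
  have hψ : ∀ k, Monotone (ψ k) := by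
    intro k a c hac
    refine Finset.card_le_card fun x hx => ?_
    rw [Finset.mem_filter] at hx ⊢
    exact ⟨hx.1, hx.2.trans_le hac⟩
  have hψs : ∀ k x γ, x ∈ F k → x < γ → ψ k x < ψ k γ := by
    intro k x γ hx hxγ
    refine Finset.card_lt_card ?_
    rw [Finset.ssubset_iff_subset_ne]
    refine ⟨fun z hz => ?_, fun heq => ?_⟩
    · rw [Finset.mem_filter] at hz ⊢
      exact ⟨hz.1, hz.2.trans hxγ⟩
    · have h1 : x ∈ (F k).filter (fun z => z < γ) := Finset.mem_filter.2 ⟨hx, hxγ⟩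
      rw [← heq, Finset.mem_filter] at h1
      exact lt_irrefl _ h1.2
  obtain ⟨y, hyl, hy⟩ := reindex hcard hw (fun k γ => ((ψ k γ : ℕ) : Ordinal.{0}))
    (fun k a c hac => Nat.cast_le.2 (hψ k hac)) hY (by
      intro x hx
      obtain ⟨m, hm⟩ := hb x hx
      refine ⟨m, fun k hk γ hγ => ?_⟩
      have h1 : h x k ∈ F k := (hF k _).2 ⟨hh x k, hm k hk⟩
      exact Nat.cast_lt.2 (hψs k _ γ h1 hγ))
  refine ⟨fun k => (F k).card, fun i k => ψ k (h (y i) k), hy, fun i k => ?_⟩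
  exact Finset.card_filter_le _ _

end MPebde8a
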