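import Pool.Agent.Lib_helper35.SI.Finite

open Ordinal Cardinal Set Order

namespace MPebde8a

/-- Upgrading a weak chain with values in a countable ordinal. -/
theorem exists_stronglyIncreasing_countable {n : ℕ} {h : Ordinal.{0} → ℕ → Ordinal.{0}}
    (hw : WeakChain (ω_ ((n + 1 + 1 : ℕ) : Ordinal.{0})) h) {ε : Ordinal.{0}} (hε : ε < ω₁)
    (hh : ∀ α k, h α k < ε) :
    ∃ ε' < ω₁, ∃ g, StronglyIncreasing (ω_ ((n + 1 + 1 : ℕ) : Ordinal.{0})) g ∧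
      ∀ α < ω_ ((n + 1 + 1 : ℕ) : Ordinal.{0}), ∀ k, g α k < ε' := by
  set E : Ordinal.{0} := ((n + 2 : ℕ) : Ordinal.{0}) * ε + ((n + 2 : ℕ) : Ordinal.{0}) + 1 with hE
  refine ⟨ω * E, ?_, rep n h, stronglyIncreasing_rep hw, fun α hα k => ?_⟩
  · have h1 : ε.card ≤ ℵ₀ := Cardinal.lt_aleph_one_iff.1 (Cardinal.lt_omega_iff_card_lt.1 hε)
    rw [Cardinal.lt_omega_iff_card_lt, Cardinal.lt_aleph_one_iff, Ordinal.card_mul,
      Ordinal.card_omega0]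
    refine (Cardinal.mul_le_max _ _).trans ?_
    have h2 : E.card ≤ ℵ₀ := by
      rw [hE, Ordinal.card_add, Ordinal.card_add, Ordinal.card_mul, Ordinal.card_nat,
        Ordinal.card_one]
      have h3 : ((n + 2 : ℕ) : Cardinal.{0}) ≤ ℵ₀ := (Cardinal.natCast_lt_aleph0).le
      have h4 : ((n + 2 : ℕ) : Cardinal.{0}) * ε.card ≤ ℵ₀ :=
        (mul_le_mul' h3 h1).trans (by rw [Cardinal.aleph0_mul_aleph0])
      have h5 : ((n + 2 : ℕ) : Cardinal.{0}) * ε.card + ((n + 2 : ℕ) : Cardinal.{0}) ≤ ℵ₀ :=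
        (add_le_add h4 h3).trans (by rw [Cardinal.aleph0_add_aleph0])
      exact (add_le_add h5 Cardinal.one_lt_aleph0.le).trans (by rw [Cardinal.aleph0_add_aleph0])
    simp only [max_le_iff, le_refl, true_and, and_true]
    exact h2
  · refine (rep_le n h hα k).trans_lt ?_
    have h1 : ((n + 2 : ℕ) : Ordinal.{0}) * h (α / ω) k + ((n + 2 : ℕ) : Ordinal.{0}) < E := by
      rw [hE]
      refine (add_le_add_left (mul_le_mul_right (hh (α / ω) k).le _) _).trans_lt ?_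
      exact Order.lt_succ _
    have h2 := val_lt h1 (le_refl k) 0
    rw [Nat.cast_zero, add_zero] at h2
    refine h2.trans_le (mul_le_mul_left ?_ _)
    exact (natCast_lt_omega0 _).le

theorem exists_stronglyIncreasing_finite {n : ℕ} {h : Ordinal.{0} → ℕ → ℕ} {B : ℕ → ℕ}
    (hw : WeakChain (ω_ ((n + 1 + 1 : ℕ) : Ordinal.{0})) (fun i k => ((h i k : ℕ) : Ordinal.{0})))
    (hB : ∀ α k, h α k ≤ B k) :
    ∃ H : ℕ → ℕ, ∃ g, StronglyIncreasing (ω_ ((n + 1 + 1 : ℕ) : Ordinal.{0})) g ∧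
      ∀ α < ω_ ((n + 1 + 1 : ℕ) : Ordinal.{0}), ∀ k, g α k ≤ ((H k : ℕ) : Ordinal.{0}) := by
  refine ⟨fun k => (k + 1) * ((n + 2) * B k + (n + 2)) + k, rep n _, stronglyIncreasing_rep hw,
    fun α hα k => (rep_le n _ hα k).trans ?_⟩
  have h1 : (k + 1) * ((n + 2) * h (α / ω) k + (n + 2)) + k ≤
      (k + 1) * ((n + 2) * B k + (n + 2)) + k := by
    have := hB (α / ω) k
    gcongr
  have h2 : (((k + 1) * ((n + 2) * h (α / ω) k + (n + 2)) + k : ℕ) : Ordinal.{0}) ≤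
      (((k + 1) * ((n + 2) * B k + (n + 2)) + k : ℕ) : Ordinal.{0}) := Nat.cast_le.2 h1
  refine le_trans (le_of_eq ?_) h2
  simp only [Nat.cast_add, Ordinal.natCast_mul, Nat.cast_one]

theorem exists_code {ε : Ordinal.{0}} (hε : ε < ω₁) : ∃ e : Ordinal.{0} → ℕ, Set.InjOn e (Iio ε) := by
  have h := countable_Iio_of_lt hε
  rw [Set.countable_iff_exists_injOn] at h
  exact h

theorem main (n : ℕ) (f : Ordinal.{0} → ℕ → Ordinal.{0}) (η : Ordinal.{0})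
    (hη : η < ω_ ((n + 1 + 1 : ℕ) : Ordinal.{0}))
    (hf : StronglyIncreasing (ω_ ((n + 1 + 1 : ℕ) : Ordinal.{0})) f)
    (hb : ∀ α < ω_ ((n + 1 + 1 : ℕ) : Ordinal.{0}), ∀ k, f α k < η) :
    (∀ t : Ordinal.{0} → Set Ordinal.{0}, ∃ E, ClubIn (ω_ ((n + 1 : ℕ) : Ordinal.{0})) E ∧
      ∀ c ⊆ E, (∀ a ∈ c, ∃ i < ω_ ((n + 1 : ℕ) : Ordinal.{0}), {x | x ∈ c ∧ x < a} = t i) →
        c.Countable) ∧
    (∃ ε < ω₁, ∃ g, StronglyIncreasing (ω_ ((n + 1 + 1 : ℕ) : Ordinal.{0})) g ∧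
      ∀ α < ω_ ((n + 1 + 1 : ℕ) : Ordinal.{0}), ∀ k, g α k < ε) ∧
    ((∃ H : ℕ → ℕ, ∃ g, StronglyIncreasing (ω_ ((n + 1 + 1 : ℕ) : Ordinal.{0})) g ∧
      ∀ α < ω_ ((n + 1 + 1 : ℕ) : Ordinal.{0}), ∀ k, g α k ≤ ((H k : ℕ) : Ordinal.{0})) ∨
     ∃ q : Ordinal.{0} → ℕ → ℕ, ∀ Y : Set Ordinal.{0},
      (∀ β < ω_ ((n + 1 + 1 : ℕ) : Ordinal.{0}), ∃ α ∈ Y,
        β ≤ α ∧ α < ω_ ((n + 1 + 1 : ℕ) : Ordinal.{0})) →
      ∀ b : ℕ → ℕ, ∃ α ∈ Y, α < ω_ ((n + 1 + 1 : ℕ) : Ordinal.{0}) ∧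
        ∀ m, ∃ k, m ≤ k ∧ b k < q α k) := by
  obtain ⟨ε, hε, h, hw, hh⟩ := exists_weakChain n hf hη hb
  refine ⟨fun t => exists_club_no_branch hw hε hh t, exists_stronglyIncreasing_countable hw hε hh,
    ?_⟩
  obtain ⟨e, he⟩ := exists_code hε
  by_cases hq : ∃ (Y : Set Ordinal.{0}) (b : ℕ → ℕ),
      Unb (ω_ ((n + 1 + 1 : ℕ) : Ordinal.{0})) Y ∧
        ∀ x ∈ Y, ∃ m, ∀ k, m ≤ k → e (h x k) ≤ b k
  · obtain ⟨Y, b, hY, hb'⟩ := hq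
    obtain ⟨B, h', hw', hB⟩ := finite_of_bounded (card_lt_cof_W (n + 1)) hw hh he hY hb'
    exact Or.inl (exists_stronglyIncreasing_finite hw' hB)
  · refine Or.inr ⟨fun α k => e (h α k), fun Y hY b => ?_⟩
    by_contra hcon
    push Not at hcon
    refine hq ⟨{x | x ∈ Y ∧ x < ω_ ((n + 1 + 1 : ℕ) : Ordinal.{0})}, b, fun β hβ => ?_,
      fun x hx => ?_⟩
    · obtain ⟨α, h1, h2, h3⟩ := hY β hβ
      exact ⟨α, ⟨h1, h3⟩, h2, h3⟩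
    · obtain ⟨m, hm⟩ := hcon x hx.1 hx.2
      exact ⟨m, fun k hk => hm k hk⟩

end MPebde8a
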