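import Pool.Agent.Lib_helper35.SI.Club

open Ordinal Cardinal Set Order

namespace MPebde8a

/-! ### Recursion along the ordinals -/

theorem exists_rec (G : Ordinal.{0} → (Ordinal.{0} → Ordinal.{0}) → Ordinal.{0})
    (hG : ∀ j (y y' : Ordinal.{0} → Ordinal.{0}), (∀ k ≤ j, y k = y' k) → G j y = G j y') :
    ∃ y : Ordinal.{0} → Ordinal.{0}, ∀ i, y i = ⨆ j : Iio i, (G j.1 y + 1) := by
  classical
  let step : (i : Ordinal.{0}) → ((k : Ordinal.{0}) → k < i → Ordinal.{0}) → Ordinal.{0} :=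
    fun i hist => ⨆ j : Iio i, (G j.1 (fun k => if h : k < i then hist k h else 0) + 1)
  refine ⟨WellFounded.fix Ordinal.lt_wf step, fun i => ?_⟩
  rw [WellFounded.fix_eq]
  refine congrArg iSup (funext fun j => ?_)
  rw [hG j.1 _ (WellFounded.fix Ordinal.lt_wf step)]
  intro k hk
  rw [dif_pos (lt_of_le_of_lt hk j.2)]

section Ladder

variable {y g : Ordinal.{0} → Ordinal.{0}} (hy : ∀ i, y i = ⨆ j : Iio i, (g j.1 + 1))

include hy

theorem ladder_lt {i j : Ordinal.{0}} (h : j < i) : g j < y i := by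
  rw [hy i]
  exact Ordinal.lt_iSup_add_one_iff.2 ⟨⟨j, h⟩, le_rfl⟩

theorem ladder_mono (hg : ∀ j, y j ≤ g j) : StrictMono y :=
  fun _ _ h => (hg _).trans_lt (ladder_lt hy h)

theorem ladder_cont {γ : Ordinal.{0}} (hγ : IsSuccLimit γ) {b : Ordinal.{0}} (hb : b < y γ) :
    ∃ j < γ, b < y j := by
  rw [hy γ] at hb
  obtain ⟨j, hj⟩ := Ordinal.lt_iSup_add_one_iff.1 hb
  exact ⟨succ j.1, hγ.succ_lt j.2, hj.trans_lt (ladder_lt hy (lt_succ _))⟩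

theorem ladder_bdd {l : Ordinal.{0}} (hl : ∀ i < l, i.card < l.cof)
    (hg : ∀ j < l, y j < l → g j < l) : ∀ i < l, y i < l := by
  intro i
  induction i using WellFoundedLT.induction with
  | ind i ih =>
    intro hi
    rw [hy i]
    exact iSup_Iio_lt (hl i hi) g fun j hj => hg j (hj.trans hi) (ih j hj (hj.trans hi))

end Ladder

/-! ### Regularity facts -/

theorem cof_W (m : ℕ) : (ω_ ((m + 1 : ℕ) : Ordinal.{0})).cof = ℵ_ ((m + 1 : ℕ) : Ordinal.{0}) := by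
  push_cast
  exact cof_omega_add_one _

theorem card_lt_cof_W (m : ℕ) : ∀ i < ω_ ((m + 1 : ℕ) : Ordinal.{0}),
    i.card < (ω_ ((m + 1 : ℕ) : Ordinal.{0})).cof := by
  intro i hi
  rw [cof_W]
  exact Cardinal.lt_omega_iff_card_lt.1 hi

theorem aleph_lt_nat {a b : ℕ} (h : a < b) :
    (ℵ_ ((a : ℕ) : Ordinal.{0})) < ℵ_ ((b : ℕ) : Ordinal.{0}) :=
  aleph_lt_aleph.2 (by exact_mod_cast h)

theorem aleph0_lt_cof_W (m : ℕ) : ℵ₀ < (ω_ ((m + 1 : ℕ) : Ordinal.{0})).cof := by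
  rw [cof_W, ← aleph_zero]
  exact_mod_cast aleph_lt_nat (Nat.succ_pos m)

theorem card_le_of_lt_W {m : ℕ} {j : Ordinal.{0}} (hj : j < ω_ ((m + 1 : ℕ) : Ordinal.{0})) :
    j.card ≤ ℵ_ ((m : ℕ) : Ordinal.{0}) := by
  have h := Cardinal.lt_omega_iff_card_lt.1 hj
  push_cast at h
  rw [← succ_aleph] at h
  exact Order.lt_succ_iff.1 h

/-! ### Countable range on an unbounded set -/

/-- Unbounded below `l`. -/
def Unb (l : Ordinal.{0}) (X : Set Ordinal.{0}) : Prop := ∀ β < l, ∃ α ∈ X, β ≤ α ∧ α < l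

theorem pigeon_Iio {l j0 : Ordinal.{0}} (h : j0.card < l.cof) {X : Set Ordinal.{0}}
    (hX : Unb l X) (F : Ordinal.{0} → Ordinal.{0}) (hF : ∀ α ∈ X, α < l → F α < j0) :
    ∃ j < j0, Unb l {α | α ∈ X ∧ F α = j} := by
  by_contra hcon
  push Not at hcon
  have h' : ∀ j : Ordinal.{0}, ∃ b : Ordinal.{0}, j < j0 →
      b < l ∧ ∀ α ∈ X, F α = j → b ≤ α → α < l → False := by
    intro j
    by_cases hj : j < j0
    · have := hcon j hj
      unfold Unb at this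
      push Not at this
      obtain ⟨b, hb, hb'⟩ := this
      exact ⟨b, fun _ => ⟨hb, fun α h1 h2 h3 h4 => absurd h4 (not_lt.2 (hb' α ⟨h1, h2⟩ h3))⟩⟩
    · exact ⟨0, fun h => absurd h hj⟩
  choose b hb using h'
  obtain ⟨c, hc, hc'⟩ := exists_bound_Iio h b fun j hj => (hb j hj).1
  obtain ⟨α, hα, h1, h2⟩ := hX c hc
  exact (hb (F α) (hF α hα h2)).2 α hα rfl ((hc' _ (hF α hα h2)).le.trans h1) h2

theorem exists_surj {j o : Ordinal.{0}} (h : j.card ≤ o.card) :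
    ∃ σ : Ordinal.{0} → Ordinal.{0}, ∀ i < j, ∃ i' < o, σ i' = i := by
  classical
  rw [← Cardinal.mk_toType, ← Cardinal.mk_toType] at h
  obtain ⟨e⟩ := h
  let E : Iio j → Iio o := fun i => Ordinal.ToType.mk.symm (e (Ordinal.ToType.mk i))
  have hE : Function.Injective E := by
    intro a b hab
    exact Ordinal.ToType.mk.injective (e.injective (Ordinal.ToType.mk.symm.injective hab))
  refine ⟨fun i' => if h : ∃ i : Iio j, (E i).1 = i' then (Classical.choose h).1 else 0, ?_⟩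
  intro i hi
  refine ⟨(E ⟨i, hi⟩).1, (E ⟨i, hi⟩).2, ?_⟩
  have hex : ∃ i' : Iio j, (E i').1 = (E ⟨i, hi⟩).1 := ⟨⟨i, hi⟩, rfl⟩
  show (if h : ∃ i' : Iio j, (E i').1 = (E ⟨i, hi⟩).1 then (Classical.choose h).1 else 0) = i
  rw [dif_pos hex]
  have := Classical.choose_spec hex
  have h2 := hE (Subtype.ext this)
  rw [h2]

theorem countable_range_step {l : Ordinal.{0}} (m : ℕ) (hm : ℵ_ ((m + 1 : ℕ) : Ordinal.{0}) < l.cof)
    (f : Ordinal.{0} → ℕ → Ordinal.{0}) (g : Ordinal.{0} → Ordinal.{0})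
    (h : Unb l {α | ∀ k, ∃ i < ω_ ((m + 1 : ℕ) : Ordinal.{0}), f α k = g i}) :
    ∃ g' : Ordinal.{0} → Ordinal.{0},
      Unb l {α | ∀ k, ∃ i < ω_ ((m : ℕ) : Ordinal.{0}), f α k = g' i} := by
  classical
  have h1 : ∀ α : Ordinal.{0}, ∃ j : Ordinal.{0},
      (∀ k, ∃ i < ω_ ((m + 1 : ℕ) : Ordinal.{0}), f α k = g i) →
        j < ω_ ((m + 1 : ℕ) : Ordinal.{0}) ∧ ∀ k, ∃ i < j, f α k = g i := by
    intro α
    by_cases hα : ∀ k, ∃ i < ω_ ((m + 1 : ℕ) : Ordinal.{0}), f α k = g i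
    · choose i hi hi' using hα
      obtain ⟨b, hb, hb'⟩ := exists_bound (l := ω_ ((m + 1 : ℕ) : Ordinal.{0})) (ι := ℕ)
        (by rw [Cardinal.mk_nat]; exact aleph0_lt_cof_W m) i hi
      exact ⟨b, fun _ => ⟨hb, fun k => ⟨i k, hb' k, hi' k⟩⟩⟩
    · exact ⟨0, fun h => absurd h hα⟩
  choose F hF using h1
  obtain ⟨j, hj, hj'⟩ := pigeon_Iio (l := l) (j0 := ω_ ((m + 1 : ℕ) : Ordinal.{0}))
    (by rw [card_omega]; exact hm) h F (fun α hα _ => (hF α hα).1)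
  obtain ⟨σ, hσ⟩ := exists_surj (j := j) (o := ω_ ((m : ℕ) : Ordinal.{0}))
    (by rw [card_omega]; exact card_le_of_lt_W hj)
  refine ⟨g ∘ σ, fun β hβ => ?_⟩
  obtain ⟨α, ⟨hα1, hα2⟩, h2, h3⟩ := hj' β hβ
  refine ⟨α, fun k => ?_, h2, h3⟩
  obtain ⟨i, hi, hi'⟩ := (hF α hα1).2 k
  rw [hα2] at hi
  obtain ⟨i', hi1, hi2⟩ := hσ i hi
  exact ⟨i', hi1, by rw [hi', Function.comp_apply, hi2]⟩

theorem countable_range_aux {l : Ordinal.{0}} (f : Ordinal.{0} → ℕ → Ordinal.{0}) :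
    ∀ m : ℕ, ℵ_ ((m : ℕ) : Ordinal.{0}) < l.cof → ∀ g : Ordinal.{0} → Ordinal.{0},
      Unb l {α | ∀ k, ∃ i < ω_ ((m : ℕ) : Ordinal.{0}), f α k = g i} →
      ∃ s : ℕ → Ordinal.{0}, Unb l {α | ∀ k, ∃ p, f α k = s p} := by
  intro m
  induction m with
  | zero =>
    intro _ g h
    refine ⟨fun p => g p, fun β hβ => ?_⟩
    obtain ⟨α, hα, h1⟩ := h β hβ
    refine ⟨α, fun k => ?_, h1⟩
    obtain ⟨i, hi, hi'⟩ := hα k
    rw [Nat.cast_zero, omega_zero] at hi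
    obtain ⟨p, rfl⟩ := lt_omega0.1 hi
    exact ⟨p, hi'⟩
  | succ m ih =>
    intro hm g h
    obtain ⟨g', hg'⟩ := countable_range_step m hm f g h
    exact ih ((aleph_lt_nat (Nat.lt_succ_self m)).trans hm) g' hg'

theorem countable_range (n : ℕ) (f : Ordinal.{0} → ℕ → Ordinal.{0}) {η : Ordinal.{0}}
    (hη : η < ω_ ((n + 1 + 1 : ℕ) : Ordinal.{0}))
    (hf : ∀ α < ω_ ((n + 1 + 1 : ℕ) : Ordinal.{0}), ∀ k, f α k < η) :
    ∃ s : ℕ → Ordinal.{0}, Unb (ω_ ((n + 1 + 1 : ℕ) : Ordinal.{0})) {α | ∀ k, ∃ p, f α k = s p} := by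
  obtain ⟨σ, hσ⟩ := exists_surj (j := η) (o := ω_ ((n + 1 : ℕ) : Ordinal.{0}))
    (by rw [card_omega]; exact card_le_of_lt_W hη)
  refine countable_range_aux f (n + 1) ?_ σ ?_
  · rw [cof_W]
    exact aleph_lt_nat (Nat.lt_succ_self _)
  · intro β hβ
    refine ⟨β, fun k => ?_, le_rfl, hβ⟩
    obtain ⟨i', h1, h2⟩ := hσ _ (hf β hβ k)
    exact ⟨i', h1, h2.symm⟩

end MPebde8a
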