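import Pool.Agent.Lib_helper35.SI.Weak

open Ordinal Cardinal Set Order

namespace MPebde8a

theorem StronglyIncreasing.weakChain {l : Ordinal.{0}} {f : Ordinal.{0} → ℕ → Ordinal.{0}}
    (hf : StronglyIncreasing l f) : WeakChain l f := by
  refine ⟨hf.1, fun δ hδ hcof => ?_⟩
  have hδlim : IsSuccLimit δ := Ordinal.one_lt_cof_iff.1 (Cardinal.one_lt_aleph0.trans hcof)
  obtain ⟨C, hC, m, hm⟩ := hf.2 δ hδ hδlim
  exact ⟨C, hC, m, fun β hβ k hk => (hm β hβ k hk).le⟩

/-- Composing a weak chain with monotone maps that are strict above the values of unboundedly many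
members gives, after passing to a continuous subsequence, a weak chain. -/
theorem reindex {l : Ordinal.{0}} (hcard : ∀ i < l, i.card < l.cof)
    {f : Ordinal.{0} → ℕ → Ordinal.{0}} (hw : WeakChain l f)
    (φ : ℕ → Ordinal.{0} → Ordinal.{0}) (hφ : ∀ k, Monotone (φ k)) {Y : Set Ordinal.{0}}
    (hY : Unb l Y)
    (hstr : ∀ x ∈ Y, ∃ m, ∀ k, m ≤ k → ∀ γ, f x k < γ → φ k (f x k) < φ k γ) :
    ∃ y : Ordinal.{0} → Ordinal.{0}, (∀ i < l, y i < l) ∧
      WeakChain l (fun i k => φ k (f (y i) k)) := by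
  classical
  have he' : ∀ β : Ordinal.{0}, ∃ x : Ordinal.{0}, β ≤ x ∧ (β < l → x < l ∧ x ∈ Y) := by
    intro β
    by_cases hβ : β < l
    · obtain ⟨α, h1, h2, h3⟩ := hY β hβ
      exact ⟨α, h2, fun _ => ⟨h3, h1⟩⟩
    · exact ⟨β, le_rfl, fun h => absurd h hβ⟩
  choose e he1 he2 using he'
  obtain ⟨y, hy⟩ := exists_rec (fun j y => e (y j)) (by
    intro j y y' h
    rw [h j le_rfl])
  have hmon : StrictMono y := ladder_mono (g := fun j => e (y j)) hy fun j => he1 _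
  have hyl : ∀ i < l, y i < l :=
    ladder_bdd (g := fun j => e (y j)) hy hcard fun j _ hj => (he2 _ hj).1
  refine ⟨y, hyl, ?_, ?_⟩
  · intro α β hαβ hβ
    have h1 : y α < l := hyl α (hαβ.trans hβ)
    have h2 : e (y α) < y β := ladder_lt (g := fun j => e (y j)) hy hαβ
    obtain ⟨hx, hxY⟩ := he2 (y α) h1
    obtain ⟨m2, hm2⟩ := hw.1 (e (y α)) (y β) h2 (hyl β hβ)
    have h3 : ∃ m1, ∀ k, m1 ≤ k → f (y α) k ≤ f (e (y α)) k := by
      rcases (he1 (y α)).eq_or_lt with h | h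
      · exact ⟨0, fun k _ => by rw [← h]⟩
      · obtain ⟨m, hm⟩ := hw.1 _ _ h hx
        exact ⟨m, fun k hk => (hm k hk).le⟩
    obtain ⟨m1, hm1⟩ := h3
    obtain ⟨m3, hm3⟩ := hstr _ hxY
    refine ⟨max m1 (max m2 m3), fun k hk => ?_⟩
    have hk1 : m1 ≤ k := (le_max_left _ _).trans hk
    have hk2 : m2 ≤ k := ((le_max_left _ _).trans (le_max_right _ _)).trans hk
    have hk3 : m3 ≤ k := ((le_max_right _ _).trans (le_max_right _ _)).trans hk
    exact (hφ k (hm1 k hk1)).trans_lt (hm3 k hk3 _ (hm2 k hk2))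
  · intro δ hδ hcof
    have hδlim : IsSuccLimit δ := Ordinal.one_lt_cof_iff.1 (Cardinal.one_lt_aleph0.trans hcof)
    have hcont : ∀ γ ≤ δ, IsSuccLimit γ → ∀ b < y γ, ∃ j < γ, b < y j :=
      fun γ _ hγ b hb => ladder_cont (g := fun j => e (y j)) hy hγ hb
    have hnorm : Order.IsNormal y := by
      rw [Order.isNormal_iff]
      refine ⟨hmon, fun o ho a ha => ?_⟩
      by_contra hcon
      obtain ⟨j, hj, haj⟩ := ladder_cont (g := fun j => e (y j)) hy ho (not_le.1 hcon)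
      exact absurd (ha j hj) (not_le.2 haj)
    have hδcof : ℵ₀ < (y δ).cof := by
      rw [cof_map_of_isNormal hnorm hδlim]
      exact hcof
    obtain ⟨C, hC, m, hm⟩ := hw.2 (y δ) (hyl δ hδ) hδcof
    refine ⟨_, hC.preimage hcof hmon hcont, m, fun β hβ k hk => ?_⟩
    exact hφ k (hm (y β) hβ.2 k hk)

end MPebde8a
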