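import Pool.Agent.Lib_helper35.SI.Range

open Ordinal Cardinal Set Order

namespace MPebde8a

/-! ### Clubs -/

/-- The range of a cofinal `ω`-sequence is a club. -/
theorem clubIn_range {δ : Ordinal.{0}} {β : ℕ → Ordinal.{0}} (hβ : StrictMono β)
    (hlt : ∀ p, β p < δ) (hcof : ∀ a < δ, ∃ p, a < β p) : ClubIn δ (Set.range β) := by
  classical
  refine ⟨?_, ?_, ?_⟩
  · rintro _ ⟨p, rfl⟩
    exact hlt p
  · intro a ha
    obtain ⟨p, hp⟩ := hcof a ha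
    exact ⟨_, ⟨p, rfl⟩, hp⟩
  · intro γ hγ h0 h
    exfalso
    have hex : ∃ p, γ ≤ β p := by
      obtain ⟨p, hp⟩ := hcof γ hγ
      exact ⟨p, hp.le⟩
    have hmin := Nat.find_spec hex
    rcases Nat.eq_zero_or_pos (Nat.find hex) with h1 | h1
    · obtain ⟨_, ⟨q, rfl⟩, h2, h3⟩ := h 0 (pos_iff_ne_zero.2 h0)
      rw [h1] at hmin
      exact absurd (h3.trans_le hmin) (not_lt.2 (hβ.monotone (Nat.zero_le q)))
    · obtain ⟨q, hq⟩ : ∃ q, Nat.find hex = q + 1 := ⟨Nat.find hex - 1, by omega⟩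
      have h2 : β q < γ := by
        by_contra hcon
        exact Nat.find_min hex (by omega) (not_lt.1 hcon)
      obtain ⟨_, ⟨p, rfl⟩, h3, h4⟩ := h (β q) h2
      have h5 : q < p := hβ.lt_iff_lt.1 h3
      have h6 : β p < β (q + 1) := h4.trans_le (by rw [← hq]; exact hmin)
      have h7 : p < q + 1 := hβ.lt_iff_lt.1 h6
      omega

theorem omega_dvd_of_isSuccLimit {γ : Ordinal.{0}} (h : IsSuccLimit γ) :
    ∃ γ', γ = ω * γ' := by
  obtain ⟨c, hc⟩ := isSuccPrelimit_iff_omega0_dvd.1 h.isSuccPrelimit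
  exact ⟨c, hc⟩

theorem ClubIn.image {δ : Ordinal.{0}} {A : Set Ordinal.{0}} (hA : ClubIn δ A) :
    ClubIn (ω * δ) ((fun i => ω * i) '' A) := by
  have hmul : ∀ {a b : Ordinal.{0}}, ω * a < ω * b ↔ a < b := fun {a b} =>
    mul_lt_mul_iff_right₀ omega0_pos
  refine ⟨?_, ?_, ?_⟩
  · rintro _ ⟨i, hi, rfl⟩
    exact hmul.2 (hA.1 i hi)
  · intro a ha
    obtain ⟨i, hi, hai⟩ := hA.2.1 (a / ω) ((Ordinal.lt_mul_iff_div_lt omega0_ne_zero).1 ha)
    exact ⟨ω * i, ⟨i, hi, rfl⟩, (Ordinal.lt_mul_iff_div_lt omega0_ne_zero).2 hai⟩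
  · intro γ hγ h0 h
    obtain ⟨γ', rfl⟩ := omega_dvd_of_isSuccLimit (isSuccLimit_of h0 fun a ha => by
      obtain ⟨β, _, h1⟩ := h a ha
      exact ⟨β, h1⟩)
    refine ⟨γ', hA.2.2 γ' (hmul.1 hγ) (fun h1 => h0 (by rw [h1, mul_zero])) ?_, rfl⟩
    intro a ha
    obtain ⟨_, ⟨i, hi, rfl⟩, h1, h2⟩ := h (ω * a) (hmul.2 ha)
    exact ⟨i, hi, hmul.1 h1, hmul.1 h2⟩

/-! ### The rank of an ordinal by its cofinality -/

noncomputable def rk (δ : Ordinal.{0}) : ℕ := sInf {m : ℕ | δ.cof ≤ ℵ_ ((m : ℕ) : Ordinal.{0})}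

theorem rk_mem {n : ℕ} {δ : Ordinal.{0}} (h : δ < ω_ ((n + 1 : ℕ) : Ordinal.{0})) :
    n ∈ {m : ℕ | δ.cof ≤ ℵ_ ((m : ℕ) : Ordinal.{0})} :=
  (cof_le_card δ).trans (card_le_of_lt_W h)

theorem rk_le {n : ℕ} {δ : Ordinal.{0}} (h : δ < ω_ ((n + 1 : ℕ) : Ordinal.{0})) : rk δ ≤ n :=
  Nat.sInf_le (rk_mem h)

theorem rk_lt {n : ℕ} {δ i : Ordinal.{0}} (h : δ < ω_ ((n + 1 : ℕ) : Ordinal.{0}))
    (hδ : ℵ₀ < δ.cof) (hi : i.cof < δ.cof) : rk i < rk δ := by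
  have hm : δ.cof ≤ ℵ_ ((rk δ : ℕ) : Ordinal.{0}) := Nat.sInf_mem ⟨n, rk_mem h⟩
  have h0 : rk δ ≠ 0 := by
    intro h0
    rw [h0, Nat.cast_zero, aleph_zero] at hm
    exact absurd hδ (not_lt.2 hm)
  obtain ⟨q, hq⟩ : ∃ q, rk δ = q + 1 := ⟨rk δ - 1, by omega⟩
  have h1 : i.cof ≤ ℵ_ ((q : ℕ) : Ordinal.{0}) := by
    have h2 : i.cof < ℵ_ (((q + 1 : ℕ) : ℕ) : Ordinal.{0}) := by
      rw [← hq]
      exact hi.trans_le hm
    push_cast at h2
    rw [← succ_aleph] at h2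
    exact Order.lt_succ_iff.1 h2
  have h3 : rk i ≤ q := Nat.sInf_le h1
  omega

/-! ### The remainder modulo `ω` -/

theorem exists_rem (α : Ordinal.{0}) : ∃ p : ℕ, α % ω = p :=
  lt_omega0.1 (Ordinal.mod_lt α omega0_ne_zero)

noncomputable def rem (α : Ordinal.{0}) : ℕ := (exists_rem α).choose

theorem rem_spec (α : Ordinal.{0}) : α % ω = rem α := (exists_rem α).choose_spec

theorem eq_div_add_rem (α : Ordinal.{0}) : α = ω * (α / ω) + rem α := by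
  rw [← rem_spec, Ordinal.div_add_mod]

theorem div_mul_add (i : Ordinal.{0}) (p : ℕ) : (ω * i + p) / ω = i := by
  rw [Ordinal.mul_add_div i omega0_ne_zero, Ordinal.div_eq_zero_of_lt (natCast_lt_omega0 p),
    add_zero]

theorem rem_mul_add (i : Ordinal.{0}) (p : ℕ) : rem (ω * i + p) = p := by
  have h := rem_spec (ω * i + p)
  rw [Ordinal.mul_add_mod_self, natCast_mod_omega0] at h
  exact_mod_cast h.symm

theorem div_mul' (i : Ordinal.{0}) : (ω * i) / ω = i := by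
  have h := div_mul_add i 0
  rwa [Nat.cast_zero, add_zero] at h

theorem rem_mul' (i : Ordinal.{0}) : rem (ω * i) = 0 := by
  have h := rem_mul_add i 0
  rwa [Nat.cast_zero, add_zero] at h

/-! ### The values -/

theorem val_lt {a b : Ordinal.{0}} (hab : a < b) {k l : ℕ} (hlk : l ≤ k) (l' : ℕ) :
    ((k + 1 : ℕ) : Ordinal.{0}) * a + l < ((k + 1 : ℕ) : Ordinal.{0}) * b + l' := by
  have h1 : ((k + 1 : ℕ) : Ordinal.{0}) * a + l < ((k + 1 : ℕ) : Ordinal.{0}) * (a + 1) := by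
    rw [mul_add_one]
    have h2 : ((l : ℕ) : Ordinal.{0}) < ((k + 1 : ℕ) : Ordinal.{0}) := by
      exact_mod_cast Nat.lt_succ_of_le hlk
    exact (add_lt_add_iff_left _).2 h2
  refine h1.trans_le (le_trans ?_ (le_self_add))
  exact mul_le_mul_right (Order.add_one_le_of_lt hab) _

theorem coef_lt {N : ℕ} {a b : Ordinal.{0}} (hab : a < b) {r r' : ℕ} (hr : r < N) :
    (N : Ordinal.{0}) * a + r + 1 < (N : Ordinal.{0}) * b + r' + 1 := by
  obtain ⟨M, rfl⟩ : ∃ M, N = M + 1 := ⟨N - 1, by omega⟩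
  have h := val_lt hab (k := M) (l := r) (by omega) r'
  exact Order.succ_lt_succ h

end MPebde8a
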