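import Pool.Agent.Lib_helper35.SI.Range

open Ordinal Cardinal Set Order

namespace MPebde8a

/-- A monotone map of the ordinals into a countable ordinal that is strict above every `s p`. -/
theorem exists_phi (s : ℕ → Ordinal.{0}) : ∃ (φ : Ordinal.{0} → Ordinal.{0}) (ε : Ordinal.{0}),
    ε < ω₁ ∧ Monotone φ ∧ (∀ γ, φ γ < ε) ∧ ∀ p γ, s p < γ → φ (s p) < φ γ := by
  classical
  let step : (γ : Ordinal.{0}) → ((k : Ordinal.{0}) → k < γ → Ordinal.{0}) → Ordinal.{0} :=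
    fun γ hist => ⨆ p : ℕ, (if h : s p < γ then hist (s p) h + 1 else 0)
  let φ : Ordinal.{0} → Ordinal.{0} := WellFounded.fix Ordinal.lt_wf step
  have hφ : ∀ γ, φ γ = ⨆ p : ℕ, (if s p < γ then φ (s p) + 1 else 0) := by
    intro γ
    have h := WellFounded.fix_eq Ordinal.lt_wf step γ
    rw [show φ γ = WellFounded.fix Ordinal.lt_wf step γ from rfl, h]
    refine congrArg iSup (funext fun p => ?_)
    by_cases hp : s p < γ
    · rw [dif_pos hp, if_pos hp]
    · rw [dif_neg hp, if_neg hp]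
  have hlt : ∀ γ, φ γ < ω₁ := by
    intro γ
    induction γ using WellFoundedLT.induction with
    | ind γ ih =>
      rw [hφ γ]
      refine Ordinal.iSup_lt_omega_one fun p => ?_
      split_ifs with hp
      · exact (isSuccLimit_omega 1).succ_lt (ih _ hp)
      · exact omega_pos 1
  have hmono : Monotone φ := by
    intro a b hab
    rw [hφ a]
    refine ciSup_le' fun p => ?_
    split_ifs with hp
    · rw [hφ b]
      refine le_trans ?_ (le_ciSup Ordinal.bddAbove_of_small p)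
      rw [if_pos (hp.trans_le hab)]
    · exact bot_le
  have hstrict : ∀ p γ, s p < γ → φ (s p) < φ γ := by
    intro p γ hp
    rw [← succ_le_iff]
    conv_rhs => rw [hφ γ]
    refine le_trans ?_ (le_ciSup Ordinal.bddAbove_of_small p)
    rw [if_pos hp]
    exact le_rfl
  have hb : (⨆ p : ℕ, (φ (s p) + 1)) < ω₁ :=
    Ordinal.iSup_lt_omega_one fun p => (isSuccLimit_omega 1).succ_lt (hlt _)
  refine ⟨φ, (⨆ p : ℕ, (φ (s p) + 1)) + 1, (isSuccLimit_omega 1).succ_lt hb, hmono, ?_, hstrict⟩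
  intro γ
  refine Order.lt_succ_iff.2 ?_
  rw [hφ γ]
  refine ciSup_le' fun p => ?_
  split_ifs with hp
  · exact le_ciSup (f := fun p : ℕ => φ (s p) + 1) Ordinal.bddAbove_of_small p
  · exact bot_le

theorem exists_weakChain (n : ℕ) {f : Ordinal.{0} → ℕ → Ordinal.{0}}
    (hSI : StronglyIncreasing (ω_ ((n + 1 + 1 : ℕ) : Ordinal.{0})) f) {η : Ordinal.{0}}
    (hη : η < ω_ ((n + 1 + 1 : ℕ) : Ordinal.{0}))
    (hf : ∀ α < ω_ ((n + 1 + 1 : ℕ) : Ordinal.{0}), ∀ k, f α k < η) :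
    ∃ ε < ω₁, ∃ h : Ordinal.{0} → ℕ → Ordinal.{0},
      WeakChain (ω_ ((n + 1 + 1 : ℕ) : Ordinal.{0})) h ∧ ∀ α k, h α k < ε := by
  classical
  obtain ⟨s, hs⟩ := countable_range n f hη hf
  obtain ⟨φ, ε, hε, hmono, hφε, hstrict⟩ := exists_phi s
  set l : Ordinal.{0} := ω_ ((n + 1 + 1 : ℕ) : Ordinal.{0}) with hl
  have hcard : ∀ i < l, i.card < l.cof := card_lt_cof_W (n + 1)
  have he' : ∀ β : Ordinal.{0}, ∃ x : Ordinal.{0}, β ≤ x ∧
      (β < l → x < l ∧ ∀ k, ∃ p, f x k = s p) := by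
    intro β
    by_cases hβ : β < l
    · obtain ⟨α, h1, h2, h3⟩ := hs β hβ
      exact ⟨α, h2, fun _ => ⟨h3, h1⟩⟩
    · exact ⟨β, le_rfl, fun h => absurd h hβ⟩
  choose e he1 he2 using he'
  obtain ⟨y, hy⟩ := exists_rec (fun j y => e (y j)) (by
    intro j y y' h
    rw [h j le_rfl])
  have hmon : StrictMono y := ladder_mono (g := fun j => e (y j)) hy fun j => he1 _
  have hyl : ∀ i < l, y i < l := ladder_bdd (g := fun j => e (y j)) hy hcard fun j _ hj => (he2 _ hj).1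
  refine ⟨ε, hε, fun i k => φ (f (y i) k), ⟨?_, ?_⟩, fun α k => hφε _⟩
  · intro α β hαβ hβ
    have h1 : y α < l := hyl α (hαβ.trans hβ)
    have h2 : e (y α) < y β := ladder_lt (g := fun j => e (y j)) hy hαβ
    obtain ⟨hx, hxs⟩ := he2 (y α) h1
    obtain ⟨m2, hm2⟩ := hSI.1 (e (y α)) (y β) h2 (hyl β hβ)
    have h3 : ∃ m1, ∀ k, m1 ≤ k → f (y α) k ≤ f (e (y α)) k := by
      rcases (he1 (y α)).eq_or_lt with h | h
      · exact ⟨0, fun k _ => by rw [← h]⟩
      · obtain ⟨m, hm⟩ := hSI.1 _ _ h hx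
        exact ⟨m, fun k hk => (hm k hk).le⟩
    obtain ⟨m1, hm1⟩ := h3
    refine ⟨max m1 m2, fun k hk => ?_⟩
    obtain ⟨p, hp⟩ := hxs k
    refine (hmono (hm1 k ((le_max_left _ _).trans hk))).trans_lt ?_
    rw [hp]
    refine hstrict p _ ?_
    rw [← hp]
    exact hm2 k ((le_max_right _ _).trans hk)
  · intro δ hδ hcof
    have hδlim : IsSuccLimit δ := Ordinal.one_lt_cof_iff.1 (Cardinal.one_lt_aleph0.trans hcof)
    have hcont : ∀ γ ≤ δ, IsSuccLimit γ → ∀ b < y γ, ∃ j < γ, b < y j :=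
      fun γ _ hγ b hb => ladder_cont (g := fun j => e (y j)) hy hγ hb
    have hylim : IsSuccLimit (y δ) := by
      refine isSuccLimit_of ?_ ?_
      · have h0 : (0 : Ordinal.{0}) < δ := hδlim.bot_lt
        exact ((bot_le : (⊥ : Ordinal.{0}) ≤ _).trans_lt (hmon h0)).ne'
      · intro a ha
        obtain ⟨j, hj, haj⟩ := hcont δ le_rfl hδlim a ha
        exact ⟨y j, haj, hmon hj⟩
    obtain ⟨C, hC, m, hm⟩ := hSI.2 (y δ) (hyl δ hδ) hylim
    refine ⟨_, hC.preimage hcof hmon hcont, m, fun β hβ k hk => ?_⟩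
    exact hmono (hm (y β) hβ.2 k hk).le

end MPebde8a
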